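import Mathlib
import Pool.Agent.H14.PaletteDefs
import Pool.Agent.H14.PaletteProof

namespace Pool.Agent.Results.MP_5f020a_co.Counter

open Pool.Agent.H14.PaletteDefs

/-- An admissible pair `(H, l)` with `l ^ π_j * j ^ (1 - π_j) ≤ e(H) - 1` for all `j` and yet
`λ(H, l) > log (e(H) - 1)`. -/
theorem result :
    ∃ (h : ℕ) (H : SimpleGraph (Fin h)) (l : ℕ),
      (∀ v, ∃ w, H.Adj v w) ∧ 3 ≤ H.edgeSet.ncard ∧ (∃ a b c, a ≠ c ∧ H.Adj a b ∧ H.Adj b c) ∧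
      H.edgeSet.ncard ≤ l ∧
      (∀ j : ℕ, 1 ≤ j → j ≤ H.edgeSet.ncard - 1 →
        (l : ℝ) ^ piJ H j * (j : ℝ) ^ (1 - piJ H j) ≤ (H.edgeSet.ncard : ℝ) - 1) ∧
      Real.log ((H.edgeSet.ncard : ℝ) - 1) < lam H l := by
  refine ⟨12, Pool.Agent.H14.PaletteProof.H, 256, by decide +kernel, ?_,
    ⟨5, 0, 8, by decide, by decide, by decide⟩, ?_, ?_, ?_⟩ <;>
    rw [Pool.Agent.H14.PaletteProof.card_H]
  · norm_num
  · norm_num
  · intro j h1 h2
    have := Pool.Agent.H14.PaletteProof.cond j h1 h2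
    norm_num at this ⊢
    exact this
  · have := Pool.Agent.H14.PaletteProof.lam_gt
    norm_num
    exact this

end Pool.Agent.Results.MP_5f020a_co.Counter
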